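import Pool.Agent.H44.MS.Basics

/-!
# The least coordinate in a representation by three squares: module B2c
-/

set_option autoImplicit false

namespace Pool.Agent.H68.MS

open Finset Real Pool.Agent.H44.MS

/-- the rate of decay -/
noncomputable def fd (z x : ℕ) : ℝ :=
  (2 : ℝ) ^ (-(Real.log x / (10 * Real.log z))) / Real.log z + (x : ℝ) ^ (-(1 / 4 : ℝ))

theorem fd_nonneg (z x : ℕ) : 0 ≤ fd z x := by
  unfold fd
  have h1 : 0 ≤ Real.log z := Real.log_natCast_nonneg z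
  positivity

theorem fd_anti {z A x : ℕ} (hA : 1 ≤ A) (h : A ≤ x) : fd z x ≤ fd z A := by
  unfold fd
  have h1 : 0 ≤ Real.log z := Real.log_natCast_nonneg z
  have hA0 : (0 : ℝ) < A := by exact_mod_cast hA
  have hAx : (A : ℝ) ≤ x := by exact_mod_cast h
  refine add_le_add ?_ ?_
  · refine div_le_div_of_nonneg_right ?_ h1
    refine Real.rpow_le_rpow_of_exponent_le one_le_two ?_
    refine neg_le_neg ?_
    exact div_le_div_of_nonneg_right (Real.log_le_log hA0 hAx) (by positivity)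
  · exact Real.rpow_le_rpow_of_nonpos hA0 hAx (by norm_num)

theorem icc_ioc (n : ℕ) : Icc 1 n = Ioc 0 n := by
  ext a
  simp only [Finset.mem_Icc, Finset.mem_Ioc]
  omega

theorem piece {C : ℝ} (hC : 0 < C) (hR : ∀ z x : ℕ, 2 ≤ z → z ^ 24 ≤ x →
    |∑ b ∈ Icc 1 x, ic (Rough z b) * chi b| ≤ C * x * fd z x) {z A x1 x2 : ℕ} (hz : 2 ≤ z)
    (hA : z ^ 24 ≤ A) (h1 : A ≤ x1) :
    |∑ a ∈ Ioc x1 x2, ic (Rough z a) * chi a| ≤ 2 * C * x2 * fd z A := by
  have hf := fd_nonneg z A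
  have hA1 : 1 ≤ A := le_trans (Nat.one_le_pow _ _ (by omega)) hA
  rcases Nat.lt_or_ge x1 x2 with h | h
  · have hs := Finset.sum_Ioc_consecutive (fun a => ic (Rough z a) * chi a) (Nat.zero_le x1) h.le
    have e1 := hR z x1 hz (hA.trans h1)
    have e2 := hR z x2 hz (hA.trans (h1.trans h.le))
    rw [icc_ioc] at e1 e2
    have e3 : ∑ a ∈ Ioc x1 x2, ic (Rough z a) * chi a =
        ∑ a ∈ Ioc 0 x2, ic (Rough z a) * chi a - ∑ a ∈ Ioc 0 x1, ic (Rough z a) * chi a := by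
      linarith
    rw [e3]
    refine (abs_sub _ _).trans ?_
    have f1 : C * x1 * fd z x1 ≤ C * x2 * fd z A := by
      have : (x1 : ℝ) ≤ x2 := by exact_mod_cast h.le
      exact mul_le_mul (mul_le_mul_of_nonneg_left this hC.le) (fd_anti hA1 h1) (fd_nonneg _ _) (by positivity)
    have f2 : C * x2 * fd z x2 ≤ C * x2 * fd z A :=
      mul_le_mul_of_nonneg_left (fd_anti hA1 (h1.trans h.le)) (by positivity)
    linarith
  · rw [Finset.Ioc_eq_empty (by omega), Finset.sum_empty, abs_zero]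
    positivity

theorem inner_eq (z E N A₀ : ℕ) (R : ℕ → Prop) (s g b c : ℕ) (hs : 1 ≤ s) (hg : 1 ≤ g) (hb : 1 ≤ b) (hc : 1 ≤ c) :
    ∑ a ∈ Icc 1 N, ic ((Smooth z s ∧ Good 0 z s) ∧ Rough z g ∧ Rough z a ∧ Rough z b ∧ Rough z c ∧
      s * (g * a * b * c) ≤ N) * (ic (R b ∧ A₀ < a ∧ E < g * a ∧ E < g * b ∧ E < b * c ∧
        E < a * c) * (chi a * chi b)) =
    ic (Smooth z s ∧ Good 0 z s) * ic (Rough z g) * ic (Rough z b) * ic (Rough z c) *
      (ic (R b ∧ E < g * b ∧ E < b * c) * chi b) *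
      ∑ a ∈ Ioc (max A₀ (max (E / g) (E / c))) (N / (s * g * b * c)), ic (Rough z a) * chi a := by
  classical
  set x1 : ℕ := max A₀ (max (E / g) (E / c)) with hx1
  set x2 : ℕ := N / (s * g * b * c) with hx2
  have hk : 0 < s * g * b * c := by positivity
  have hmem : ∀ a : ℕ, a ∈ Ioc x1 x2 ↔ (A₀ < a ∧ E < g * a ∧ E < a * c ∧ s * (g * a * b * c) ≤ N) := by
    intro a
    rw [Finset.mem_Ioc, hx1, hx2, max_lt_iff, max_lt_iff, Nat.div_lt_iff_lt_mul hg,
      Nat.div_lt_iff_lt_mul hc, Nat.le_div_iff_mul_le hk]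
    have e1 : a * (s * g * b * c) = s * (g * a * b * c) := by ring
    rw [e1, mul_comm a g]
    tauto
  have hterm : ∀ a : ℕ, ic ((Smooth z s ∧ Good 0 z s) ∧ Rough z g ∧ Rough z a ∧ Rough z b ∧ Rough z c ∧
      s * (g * a * b * c) ≤ N) * (ic (R b ∧ A₀ < a ∧ E < g * a ∧ E < g * b ∧ E < b * c ∧
        E < a * c) * (chi a * chi b)) =
      (ic (Smooth z s ∧ Good 0 z s) * ic (Rough z g) * ic (Rough z b) * ic (Rough z c) *
      (ic (R b ∧ E < g * b ∧ E < b * c) * chi b)) * (ic (a ∈ Ioc x1 x2) * (ic (Rough z a) * chi a)) := by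
    intro a
    have h1 : ic ((Smooth z s ∧ Good 0 z s) ∧ Rough z g ∧ Rough z a ∧ Rough z b ∧ Rough z c ∧
      s * (g * a * b * c) ≤ N) * ic (R b ∧ A₀ < a ∧ E < g * a ∧ E < g * b ∧ E < b * c ∧
        E < a * c) = ic (Smooth z s ∧ Good 0 z s) * ic (Rough z g) * ic (Rough z b) * ic (Rough z c) *
      ic (R b ∧ E < g * b ∧ E < b * c) * ic (a ∈ Ioc x1 x2) * ic (Rough z a) := by
      rw [← ic_and, ← ic_and, ← ic_and, ← ic_and, ← ic_and, ← ic_and, ← ic_and]
      refine ic_congr ?_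
      rw [hmem]
      tauto
    linear_combination (chi a * chi b) * h1
  rw [Finset.sum_congr rfl fun a _ => hterm a, ← Finset.mul_sum, sum_ic_mul]
  congr 1
  refine Finset.sum_congr ?_ fun _ _ => rfl
  ext a
  simp only [Finset.mem_filter, Finset.mem_Icc]
  constructor
  · exact fun h => h.2
  · intro h
    refine ⟨?_, h⟩
    rw [Finset.mem_Ioc] at h
    exact ⟨by omega, h.2.trans (Nat.div_le_self _ _)⟩

theorem pf_B2c (hRCC : T_RCC) (hSG : T_SG) (hR0 : T_R0) : T_B2c := by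
  obtain ⟨C, hC, hR⟩ := hRCC
  obtain ⟨C1, hC1, hS⟩ := hSG
  obtain ⟨C2, hC2, hR2⟩ := hR0
  refine ⟨2 * C * (C1 * C2 ^ 3 + 1), by positivity, ?_⟩
  intro z E N A₀ R hz hzA hAN
  have hzN : z ≤ N := (Nat.le_self_pow (by norm_num) z).trans (hzA.trans hAN)
  have hlz : 0 < Real.log z := Real.log_pos (by exact_mod_cast hz)
  have hlN : 0 ≤ Real.log N := Real.log_natCast_nonneg N
  set SS : ℝ := ∑ n ∈ Icc 1 N, ic (Smooth z n ∧ Good 0 z n) / n with hSS
  set RR : ℝ := ∑ n ∈ Icc 1 N, ic (Rough z n) / n with hRR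
  have hS1 : SS ≤ C1 * √(Real.log z) := hS z N hz
  have hR1 : RR ≤ C2 * (Real.log N / Real.log z) := hR2 z N hz hzN
  have hS0 : 0 ≤ SS := Finset.sum_nonneg fun n _ => div_nonneg (ic_nonneg _) (Nat.cast_nonneg _)
  have hR00 : 0 ≤ RR := Finset.sum_nonneg fun n _ => div_nonneg (ic_nonneg _) (Nat.cast_nonneg _)
  have hS3 : SS ≤ 1 + Real.log N := by
    refine le_trans (Finset.sum_le_sum fun n _ => ?_) (harmonic_le N)
    exact div_le_div_of_nonneg_right (ic_le_one _) (Nat.cast_nonneg _)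
  have hR3 : RR ≤ 1 + Real.log N := by
    refine le_trans (Finset.sum_le_sum fun n _ => ?_) (harmonic_le N)
    exact div_le_div_of_nonneg_right (ic_le_one _) (Nat.cast_nonneg _)
  -- the main estimate
  have hmain : |QS z N (fun g a b c => ic (R b ∧ A₀ < a ∧ E < g * a ∧ E < g * b ∧ E < b * c ∧
        E < a * c) * (chi a * chi b))| ≤ 2 * C * N * fd z A₀ * (SS * RR * RR * RR) := by
    have hQ : QS z N (fun g a b c => ic (R b ∧ A₀ < a ∧ E < g * a ∧ E < g * b ∧ E < b * c ∧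
        E < a * c) * (chi a * chi b)) = ∑ s ∈ Icc 1 N, ∑ g ∈ Icc 1 N, ∑ b ∈ Icc 1 N, ∑ c ∈ Icc 1 N,
        ∑ a ∈ Icc 1 N, ic ((Smooth z s ∧ Good 0 z s) ∧ Rough z g ∧ Rough z a ∧ Rough z b ∧ Rough z c ∧
      s * (g * a * b * c) ≤ N) * (ic (R b ∧ A₀ < a ∧ E < g * a ∧ E < g * b ∧ E < b * c ∧
        E < a * c) * (chi a * chi b)) := by
      unfold QS
      refine Finset.sum_congr rfl fun s _ => Finset.sum_congr rfl fun g _ => ?_
      rw [Finset.sum_comm]
      refine Finset.sum_congr rfl fun b _ => ?_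
      rw [Finset.sum_comm]
    have hterm : ∀ s ∈ Icc 1 N, ∀ g ∈ Icc 1 N, ∀ b ∈ Icc 1 N, ∀ c ∈ Icc 1 N,
        |∑ a ∈ Icc 1 N, ic ((Smooth z s ∧ Good 0 z s) ∧ Rough z g ∧ Rough z a ∧ Rough z b ∧ Rough z c ∧
      s * (g * a * b * c) ≤ N) * (ic (R b ∧ A₀ < a ∧ E < g * a ∧ E < g * b ∧ E < b * c ∧
        E < a * c) * (chi a * chi b))| ≤ 2 * C * N * fd z A₀ * (ic (Smooth z s ∧ Good 0 z s) / s) *
        (ic (Rough z g) / g) * (ic (Rough z b) / b) * (ic (Rough z c) / c) := by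
      intro s hs g hg b hb c hc
      have hs1 := (Finset.mem_Icc.1 hs).1
      have hg1 := (Finset.mem_Icc.1 hg).1
      have hb1 := (Finset.mem_Icc.1 hb).1
      have hc1 := (Finset.mem_Icc.1 hc).1
      rw [inner_eq z E N A₀ R s g b c hs1 hg1 hb1 hc1]
      have hp := piece hC (fun z x hz hx => hR z x hz hx) (x1 := max A₀ (max (E / g) (E / c)))
        (x2 := N / (s * g * b * c)) hz hzA (le_max_left _ _)
      have hx2 : ((N / (s * g * b * c) : ℕ) : ℝ) ≤ (N : ℝ) / ((s : ℝ) * g * b * c) := by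
        have := Nat.cast_div_le (α := ℝ) (m := N) (n := s * g * b * c)
        push_cast at this
        exact this
      rw [abs_mul]
      have hw : |ic (Smooth z s ∧ Good 0 z s) * ic (Rough z g) * ic (Rough z b) * ic (Rough z c) *
          (ic (R b ∧ E < g * b ∧ E < b * c) * chi b)| ≤
          ic (Smooth z s ∧ Good 0 z s) * ic (Rough z g) * ic (Rough z b) * ic (Rough z c) := by
        rw [abs_mul]
        have h0 : 0 ≤ ic (Smooth z s ∧ Good 0 z s) * ic (Rough z g) * ic (Rough z b) * ic (Rough z c) :=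
          mul_nonneg (mul_nonneg (mul_nonneg (ic_nonneg _) (ic_nonneg _)) (ic_nonneg _)) (ic_nonneg _)
        rw [abs_of_nonneg h0]
        refine mul_le_of_le_one_right h0 ?_
        rw [abs_mul, abs_ic]
        exact mul_le_one₀ (ic_le_one _) (abs_nonneg _) (abs_chi_le b)
      have hf := fd_nonneg z A₀
      have hs0 : (0 : ℝ) < s := by exact_mod_cast hs1
      have hg0 : (0 : ℝ) < g := by exact_mod_cast hg1
      have hb0 : (0 : ℝ) < b := by exact_mod_cast hb1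
      have hc0 : (0 : ℝ) < c := by exact_mod_cast hc1
      have hp2 : 2 * C * ((N / (s * g * b * c) : ℕ) : ℝ) * fd z A₀ ≤
          2 * C * ((N : ℝ) / ((s : ℝ) * g * b * c)) * fd z A₀ :=
        mul_le_mul_of_nonneg_right (mul_le_mul_of_nonneg_left hx2 (by positivity)) hf
      refine le_trans (mul_le_mul hw (hp.trans hp2) (abs_nonneg _)
        (mul_nonneg (mul_nonneg (mul_nonneg (ic_nonneg _) (ic_nonneg _)) (ic_nonneg _)) (ic_nonneg _))) ?_
      refine le_of_eq ?_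
      field_simp
    rw [hQ]
    refine (Finset.abs_sum_le_sum_abs _ _).trans ?_
    refine le_trans (Finset.sum_le_sum fun s hs => (Finset.abs_sum_le_sum_abs _ _).trans
      (Finset.sum_le_sum fun g hg => (Finset.abs_sum_le_sum_abs _ _).trans
      (Finset.sum_le_sum fun b hb => (Finset.abs_sum_le_sum_abs _ _).trans
      (Finset.sum_le_sum fun c hc => hterm s hs g hg b hb c hc)))) ?_
    refine le_of_eq ?_
    simp_rw [← Finset.mul_sum, ← Finset.sum_mul, ← Finset.mul_sum, ← Finset.sum_mul, ← Finset.mul_sum]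
    rw [← hRR, ← Finset.sum_mul, ← Finset.mul_sum, ← hSS]
    ring
  refine hmain.trans ?_
  set T : ℝ := (2 : ℝ) ^ (-(Real.log A₀ / (10 * Real.log z))) with hT
  set U : ℝ := (A₀ : ℝ) ^ (-(1 / 4 : ℝ)) with hU
  have hfd : fd z A₀ = T / Real.log z + U := rfl
  have hT0 : 0 ≤ T := by positivity
  have hU0 : 0 ≤ U := by positivity
  set q : ℝ := Real.log N / Real.log z with hq
  have hq0 : 0 ≤ q := div_nonneg hlN hlz.le
  set S : ℝ := √(Real.log z) with hSd
  have hS00 : 0 < S := Real.sqrt_pos.2 hlz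
  have hSS2 : S * S = Real.log z := Real.mul_self_sqrt hlz.le
  have a1 : SS * RR * RR * RR ≤ C1 * S * (C2 * q) ^ 3 := by
    have e1 : SS * RR * RR * RR = SS * RR ^ 3 := by ring
    rw [e1]
    exact mul_le_mul hS1 (pow_le_pow_left₀ hR00 hR1 3) (by positivity) (by positivity)
  have a2 : SS * RR * RR * RR ≤ (1 + Real.log N) ^ 4 := by
    have e1 : SS * RR * RR * RR = SS * RR ^ 3 := by ring
    have e2 : (1 + Real.log N) ^ 4 = (1 + Real.log N) * (1 + Real.log N) ^ 3 := by ring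
    rw [e1, e2]
    exact mul_le_mul hS3 (pow_le_pow_left₀ hR00 hR3 3) (by positivity) (by positivity)
  have b1 : SS * RR * RR * RR * (T / Real.log z) ≤ C1 * C2 ^ 3 * (q ^ 3 / S * T) := by
    refine le_trans (mul_le_mul_of_nonneg_right a1 (by positivity)) (le_of_eq ?_)
    rw [← hSS2]
    field_simp
  have b2 : SS * RR * RR * RR * U ≤ (1 + Real.log N) ^ 4 * U := mul_le_mul_of_nonneg_right a2 hU0
  have hX : 0 ≤ q ^ 3 / S * T := by positivity
  have hY : 0 ≤ (1 + Real.log N) ^ 4 * U := by positivity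
  have hK : 0 ≤ C1 * C2 ^ 3 := by positivity
  have key : fd z A₀ * (SS * RR * RR * RR) ≤
      (C1 * C2 ^ 3 + 1) * (q ^ 3 / S * T + (1 + Real.log N) ^ 4 * U) := by
    rw [hfd]
    nlinarith [mul_nonneg hK hY]
  have hCN : 0 ≤ 2 * C * (N : ℝ) := by positivity
  calc 2 * C * N * fd z A₀ * (SS * RR * RR * RR) = 2 * C * N * (fd z A₀ * (SS * RR * RR * RR)) := by ring
    _ ≤ 2 * C * N * ((C1 * C2 ^ 3 + 1) * (q ^ 3 / S * T + (1 + Real.log N) ^ 4 * U)) :=
        mul_le_mul_of_nonneg_left key hCN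
    _ = _ := by ring

end Pool.Agent.H68.MS
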